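import Pool.Agent.U364.PD.Mach
import Pool.Agent.R473.FP.FS

/-!
# Pushdown predictors for the digits of several numbers with a joint irrationality measure
-/

set_option autoImplicit false

namespace Pool.Agent.U364.PD

open Finset
open Pool.Agent.H831R3.LC (dig A)
open Pool.Agent.W47.JL

/-- from gaps to the number of errors -/
lemma count_bound (B : ℝ) (hB : 0 ≤ B) (S : ℝ) (hS : 0 ≤ S) (G : ℕ → Prop) [DecidablePred G]
    (hgap : ∀ u v : ℕ, (∀ i, u ≤ i → i < v → G i) → (v : ℝ) ≤ B * (u + S + 1)) (N : ℕ) :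
    (N : ℝ) ≤ (B + 2) ^ (((range N).filter fun n => ¬ G n).card + 1) * (S + 1) := by
  have key : ∀ N : ℕ, ∃ u : ℕ, u ≤ N ∧ (∀ i, u ≤ i → i < N → G i) ∧
      ((u : ℝ) + S + 1) ≤ (B + 2) ^ ((range N).filter fun n => ¬ G n).card * (S + 1) := by
    intro N
    induction N with
    | zero => exact ⟨0, le_rfl, fun i _ h => absurd h (Nat.not_lt_zero i), by simp⟩
    | succ N ih =>
      obtain ⟨u, huN, hpr, hle⟩ := ih
      by_cases hN : G N
      · refine ⟨u, by omega, fun i h1 h2 => ?_, ?_⟩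
        · rcases Nat.lt_succ_iff_lt_or_eq.1 h2 with h3 | h3
          · exact hpr i h1 h3
          · rw [h3]; exact hN
        · rw [Finset.range_add_one, Finset.filter_insert, if_neg (by simpa using hN)]
          exact hle
      · refine ⟨N + 1, le_rfl, fun i h1 h2 => by omega, ?_⟩
        rw [Finset.range_add_one, Finset.filter_insert, if_pos (by simpa using hN),
          Finset.card_insert_of_notMem (by simp), pow_succ]
        have h1 := hgap u N hpr
        have h2 := mul_le_mul_of_nonneg_left hle hB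
        have h3 : S + 1 ≤ (B + 2) ^ ((range N).filter fun n => ¬ G n).card * (S + 1) :=
          le_mul_of_one_le_left (by linarith) (one_le_pow₀ (by linarith))
        push_cast
        nlinarith
  obtain ⟨u, huN, hpr, hle⟩ := key N
  have h1 := hgap u N hpr
  have h2 := mul_le_mul_of_nonneg_left hle hB
  have h3 : 0 ≤ (B + 2) ^ ((range N).filter fun n => ¬ G n).card * (S + 1) := by positivity
  rw [pow_succ]
  nlinarith

/-- the length of a stretch on which the digits of all the numbers are periodic -/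
theorem gap_joint {J : ℕ} (x : Fin J → ℝ) (μ c0 : ℝ) (hμ : 1 < μ) (hc0 : 0 < c0)
    (hM : Meas J x μ c0 0) (b : ℕ) (hb : 2 ≤ b) (Q u v a p : ℕ) (hp : 1 ≤ p) (hap : a + p ≤ Q)
    (hper : ∀ j i, a ≤ i → u + i + p < v → dig (x j) b (u + i + p + 1) = dig (x j) b (u + i + 1)) :
    (v : ℝ) ≤ μ * (u + Q) + 3 / 2 * |Real.log c0| := by
  have hbR : (2 : ℝ) ≤ b := by exact_mod_cast hb
  have hb0 : (0 : ℝ) < b := by linarith
  have hu0 : (0 : ℝ) ≤ u := Nat.cast_nonneg u
  have hQ0 : (0 : ℝ) ≤ Q := Nat.cast_nonneg Q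
  have hlb : 0.69 ≤ Real.log b := by
    have h1 := Real.log_two_gt_d9
    have h2 := Real.log_le_log (by norm_num : (0 : ℝ) < 2) hbR
    linarith
  have hc00 := abs_nonneg (Real.log c0)
  rcases le_or_gt v (u + (a + p)) with hv | hv
  · have h1 : (v : ℝ) ≤ u + Q := by exact_mod_cast (by omega : v ≤ u + Q)
    nlinarith
  obtain ⟨w, hw⟩ : ∃ w : ℕ, v = u + (a + p) + w := ⟨v - (u + (a + p)), by omega⟩
  have hcl := fun j => Pool.Agent.R473.FP.close (x j) b (by omega) (u + a + p) (u + a) w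
    (fun i hi => by
      have := hper j (a + i) (by omega) (by omega)
      rw [show u + a + p + i + 1 = u + (a + i) + p + 1 by ring,
        show u + a + i + 1 = u + (a + i) + 1 by ring]
      exact this)
  obtain ⟨q, hq⟩ : ∃ q : ℕ, q = b ^ (u + a + p) - b ^ (u + a) := ⟨_, rfl⟩
  have hlt : b ^ (u + a) < b ^ (u + a + p) := Nat.pow_lt_pow_right (by omega) (by omega)
  have hq1 : 1 ≤ q := by omega
  have hqR : (q : ℝ) = (b : ℝ) ^ (u + a + p) - (b : ℝ) ^ (u + a) := by
    rw [hq, Nat.cast_sub hlt.le]; push_cast; ring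
  have hq1R : (1 : ℝ) ≤ q := by exact_mod_cast hq1
  have hqle : (q : ℝ) ≤ (b : ℝ) ^ (u + Q) := by
    have h1 : (b : ℝ) ^ (u + a + p) ≤ (b : ℝ) ^ (u + Q) :=
      pow_le_pow_right₀ (by linarith) (by omega)
    have h2 : (0 : ℝ) ≤ (b : ℝ) ^ (u + a) := by positivity
    linarith
  obtain ⟨j, hj⟩ := hM q hq1 (fun j => A (x j) b (u + a + p) - A (x j) b (u + a))
  simp only [Real.rpow_zero, mul_one] at hj
  have e : (q : ℝ) * x j - ((A (x j) b (u + a + p) - A (x j) b (u + a) : ℤ) : ℝ) =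
      x j * (b : ℝ) ^ (u + a + p) - x j * (b : ℝ) ^ (u + a) -
        ((A (x j) b (u + a + p) - A (x j) b (u + a) : ℤ) : ℝ) := by rw [hqR]; ring
  rw [e] at hj
  have hlogq : Real.log q ≤ (u + Q) * Real.log b := by
    have h1 := Real.log_le_log (by linarith) hqle
    rw [Real.log_pow] at h1
    exact_mod_cast h1
  have h2 : c0 * (b : ℝ) ^ w ≤ (q : ℝ) ^ (μ - 1) := by
    calc c0 * (b : ℝ) ^ w ≤ ((q : ℝ) ^ (μ - 1) *
          |x j * (b : ℝ) ^ (u + a + p) - x j * (b : ℝ) ^ (u + a) -
            ((A (x j) b (u + a + p) - A (x j) b (u + a) : ℤ) : ℝ)|) * (b : ℝ) ^ w :=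
          mul_le_mul_of_nonneg_right hj (by positivity)
      _ = (q : ℝ) ^ (μ - 1) *
          (|x j * (b : ℝ) ^ (u + a + p) - x j * (b : ℝ) ^ (u + a) -
            ((A (x j) b (u + a + p) - A (x j) b (u + a) : ℤ) : ℝ)| * (b : ℝ) ^ w) := by ring
      _ ≤ (q : ℝ) ^ (μ - 1) * 1 := mul_le_mul_of_nonneg_left (hcl j) (by positivity)
      _ = _ := mul_one _
  have h3 := Real.log_le_log (by positivity) h2
  rw [Real.log_mul hc0.ne' (by positivity), Real.log_pow, Real.log_rpow (by linarith)] at h3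
  have h6 := mul_le_mul_of_nonneg_left hlogq (by linarith : 0 ≤ μ - 1)
  have h7 : -|Real.log c0| ≤ Real.log c0 := neg_abs_le _
  have h9 : (v : ℝ) ≤ u + Q + w := by exact_mod_cast (by omega : v ≤ u + Q + w)
  have h11 : |Real.log c0| ≤ 3 / 2 * |Real.log c0| * Real.log b := by nlinarith
  have h14 := mul_le_mul_of_nonneg_right h9 (by linarith : 0 ≤ Real.log b)
  have h13 : (v : ℝ) * Real.log b ≤ (μ * (u + Q) + 3 / 2 * |Real.log c0|) * Real.log b := by
    nlinarith
  exact le_of_mul_le_mul_right h13 (by linarith)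

/-- **Joint prediction.** Pushdown machines for the digits of several numbers with a joint irrationality measure. -/
theorem joint {J : ℕ} (μ c0 : ℝ) (hμ : 1 < μ) (hc0 : 0 < c0) (b : ℕ) (hb : 2 ≤ b)
    (Q Γ : Fin J → Type) [∀ j, Finite (Q j)] [∀ j, Finite (Γ j)] (M : ∀ j, Machine (Q j) (Γ j)) :
    ∃ K : ℝ, ∀ x : Fin J → ℝ, Meas J x μ c0 0 → ∀ (q₀ : ∀ j, Q j) (s₀ : ∀ j, List (Γ j)) (N : ℕ),
      (N : ℝ) ≤ K ^ ((∑ j, errors (M j) (dig (x j) b) (q₀ j) (s₀ j) N) + 1) *
        ((∑ j, ((s₀ j).length : ℝ)) + 1) := by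
  classical
  have hst := fun j => stretchP (M j) b
  choose C P hst using hst
  obtain ⟨CC, hCC⟩ : ∃ CC : ℕ, CC = ∑ j, C j + ∏ j, P j := ⟨_, rfl⟩
  obtain ⟨B, hB⟩ : ∃ B : ℝ, B = μ * (1 + CC) + 3 / 2 * |Real.log c0| := ⟨_, rfl⟩
  have hlc : 0 ≤ 3 / 2 * |Real.log c0| := by positivity
  have hB0 : 0 ≤ B := by rw [hB]; positivity
  refine ⟨B + 2, fun x hx q₀ s₀ N => ?_⟩
  have hd : ∀ j n, 0 ≤ dig (x j) b n ∧ dig (x j) b n < b := fun j n =>
    ⟨Int.emod_nonneg _ (by exact_mod_cast (by omega : b ≠ 0)),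
      Int.emod_lt_of_pos _ (by exact_mod_cast (by omega : 0 < b))⟩
  obtain ⟨S, hS⟩ : ∃ S : ℕ, S = ∑ j, (s₀ j).length := ⟨_, rfl⟩
  have hSR : (∑ j, ((s₀ j).length : ℝ)) = S := by rw [hS]; push_cast; rfl
  have hSj : ∀ j, (s₀ j).length ≤ S := fun j => by
    rw [hS]
    exact Finset.single_le_sum (f := fun j => (s₀ j).length) (fun _ _ => Nat.zero_le _) (mem_univ j)
  -- the length of the stretches
  have hgap : ∀ u v : ℕ, (∀ i, u ≤ i → i < v →
      ∀ j, Predicts (M j) (dig (x j) b) (q₀ j) (s₀ j) i) → (v : ℝ) ≤ B * (u + (S : ℝ) + 1) := by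
    intro u v hp
    have h1 := fun j => hst j (dig (x j) b) (hd j) (q₀ j) (s₀ j) u v (fun i h1 h2 => hp i h1 h2 j)
    choose a p hp1 hpP hap hper using h1
    have hprod : 1 ≤ ∏ j, p j := Finset.one_le_prod' fun j _ => hp1 j
    have hprodP : ∏ j, p j ≤ ∏ j, P j := Finset.prod_le_prod' fun j _ => hpP j
    have hsum : ∑ j, a j ≤ (∑ j, C j) * (u + S + 1) := by
      rw [Finset.sum_mul]
      refine Finset.sum_le_sum fun j _ => ?_
      refine (Nat.le_add_right _ _).trans ((hap j).trans (Nat.mul_le_mul_left _ ?_))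
      have := hSj j
      omega
    have hle : ∑ j, a j + ∏ j, p j ≤ CC * (u + S + 1) := by
      rw [hCC, Nat.add_mul]
      have h2 : ∏ j, P j ≤ (∏ j, P j) * (u + S + 1) := Nat.le_mul_of_pos_right _ (by omega)
      omega
    have h := gap_joint x μ c0 hμ hc0 hx b hb (CC * (u + S + 1)) u v (∑ j, a j) (∏ j, p j) hprod hle
      (fun j i hi hiv => by
        have haj : a j ≤ ∑ j, a j :=
          Finset.single_le_sum (f := a) (fun _ _ => Nat.zero_le _) (mem_univ j)
        obtain ⟨k, hk⟩ : p j ∣ ∏ j, p j := Finset.dvd_prod_of_mem _ (mem_univ j)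
        rw [hk] at hiv ⊢
        have key : ∀ k, u + i + p j * k < v →
            dig (x j) b (u + i + p j * k + 1) = dig (x j) b (u + i + 1) := by
          intro k
          induction k with
          | zero => intro _; simp
          | succ k ih =>
            intro hk
            have e1 : p j * (k + 1) = p j * k + p j := by ring
            rw [e1] at hk ⊢
            have h3 := hper j (i + p j * k) (by omega) (by omega)
            have h4 := ih (by omega)
            rw [show u + i + (p j * k + p j) + 1 = u + (i + p j * k) + p j + 1 by ring, h3,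
              show u + (i + p j * k) + 1 = u + i + p j * k + 1 by ring, h4]
        exact key k hiv)
    push_cast at h
    have hu : (0 : ℝ) ≤ u := Nat.cast_nonneg u
    have hs : (0 : ℝ) ≤ S := Nat.cast_nonneg _
    have hCCR : (0 : ℝ) ≤ CC := Nat.cast_nonneg _
    have h1 : (1 : ℝ) ≤ u + S + 1 := by linarith
    have h2 : 3 / 2 * |Real.log c0| ≤ 3 / 2 * |Real.log c0| * (u + S + 1) :=
      le_mul_of_one_le_right hlc h1
    have h3 : μ * (u + CC * (u + S + 1)) ≤ μ * (1 + CC) * (u + S + 1) := by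
      rw [mul_assoc]
      refine mul_le_mul_of_nonneg_left ?_ (by linarith)
      nlinarith
    have h4 : B * (u + S + 1) = μ * (1 + CC) * (u + S + 1) +
        3 / 2 * |Real.log c0| * (u + S + 1) := by rw [hB]; ring
    rw [h4]
    linarith
  have hfin := count_bound B hB0 S (Nat.cast_nonneg _)
    (fun i => ∀ j, Predicts (M j) (dig (x j) b) (q₀ j) (s₀ j) i) hgap N
  rw [hSR]
  refine hfin.trans (mul_le_mul_of_nonneg_right ?_ (by positivity))
  refine pow_le_pow_right₀ (by linarith) (Nat.add_le_add_right ?_ 1)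
  -- the joint errors are errors of one of the machines
  have hsub : ((range N).filter fun i => ¬ ∀ j, Predicts (M j) (dig (x j) b) (q₀ j) (s₀ j) i) ⊆
      univ.biUnion fun j => (range N).filter fun i =>
        ¬ Predicts (M j) (dig (x j) b) (q₀ j) (s₀ j) i := by
    intro i hi
    rw [mem_filter] at hi
    push Not at hi
    obtain ⟨h1, j, h2⟩ := hi
    rw [mem_biUnion]
    exact ⟨j, mem_univ j, mem_filter.2 ⟨h1, h2⟩⟩
  refine (card_le_card hsub).trans (card_biUnion_le.trans (Finset.sum_le_sum fun j _ => ?_))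
  unfold errors
  exact le_of_eq (by congr)

end Pool.Agent.U364.PD
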