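import Mathlib
import Pool.Agent.U364.PD.Mach
import Pool.Agent.U364.PD.Joint

/-!
# Pushdown predictors for the columns of the automaton of multiplication by `3/2`

The definition of the automaton and the elementary lemmas up to `exists_IP` are copied from the starting file
`MP_cc0c1a_nt.ColumnComplexity` (with finite configurations replaced by configurations which vanish far to the left).
-/

set_option autoImplicit false

namespace Pool.Agent.U364.PD.Col

/-- the automaton multiplying by three in base six -/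
def F3 (x : ℤ → Fin 6) : ℤ → Fin 6 :=
  fun i => Fin.ofNat 6 ((3 * (x i : ℕ)) % 6 + (3 * (x (i + 1) : ℕ)) / 6)

/-- the automaton multiplying by three halves in base six -/
def F (x : ℤ → Fin 6) : ℤ → Fin 6 := F3 (F3 fun i => x (i - 1))

lemma F3_val (x : ℤ → Fin 6) (i : ℤ) :
    ((F3 x i : Fin 6) : ℕ) = (3 * (x i : ℕ)) % 6 + (x (i + 1) : ℕ) / 2 := by
  have h1 := (x i).isLt
  have h2 := (x (i + 1)).isLt
  unfold F3
  rw [Fin.ofNat]
  simp only
  omega

/-- `U j` is the integer with the digits of `x` up to the position `j` -/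
def IP (x : ℤ → Fin 6) (U : ℤ → ℕ) : Prop := ∀ j, U j = (x j : ℕ) + 6 * U (j - 1)

lemma IP_F3 {x : ℤ → Fin 6} {U : ℤ → ℕ} (h : IP x U) :
    IP (F3 x) (fun j => 3 * U j + (x (j + 1) : ℕ) / 2) := by
  intro j
  rw [F3_val]
  have h1 := h j
  have h2 := (x j).isLt
  have h3 : j - 1 + 1 = j := by ring
  simp only [h3]
  omega

lemma IP_shift {x : ℤ → Fin 6} {U : ℤ → ℕ} (h : IP x U) :
    IP (fun i => x (i - 1)) (fun j => U (j - 1)) := fun j => h (j - 1)

/-- the integers after one step -/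
def nxt (x : ℤ → Fin 6) (U : ℤ → ℕ) : ℤ → ℕ := fun j =>
  3 * (3 * U (j - 1) + (x j : ℕ) / 2) + ((3 * (x j : ℕ)) % 6 + (x (j + 1) : ℕ) / 2) / 2

lemma IP_F {x : ℤ → Fin 6} {U : ℤ → ℕ} (h : IP x U) : IP (F x) (nxt x U) := by
  have h1 := IP_F3 (IP_F3 (IP_shift h))
  have h2 : (fun j => 3 * (3 * U (j - 1) + ((fun i => x (i - 1)) (j + 1) : ℕ) / 2)
      + (F3 (fun i => x (i - 1)) (j + 1) : ℕ) / 2) = nxt x U := by
    funext j
    unfold nxt
    rw [F3_val]
    have e1 : j + 1 - 1 = j := by ring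
    have e2 : j + 1 + 1 - 1 = j + 1 := by ring
    simp only [e1, e2]
  rw [h2] at h1
  exact h1

/-- the difference word -/
def dif (x : ℤ → Fin 6) (j : ℤ) : ℤ :=
  2 * ((((3 * (x j : ℕ)) % 6 + (x (j + 1) : ℕ) / 2) / 2 : ℕ) : ℤ) - 3 * (((x j : ℕ) % 2 : ℕ) : ℤ)

lemma nxt_rec {x : ℤ → Fin 6} {U : ℤ → ℕ} (h : IP x U) (j : ℤ) :
    2 * (nxt x U j : ℤ) = 3 * (U j : ℤ) + dif x j := by
  have h1 := h j
  unfold nxt dif
  omega

lemma dif_range (x : ℤ → Fin 6) (j : ℤ) : -1 ≤ dif x j ∧ dif x j ≤ 2 := by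
  have h1 := (x j).isLt
  have h2 := (x (j + 1)).isLt
  unfold dif
  omega

/-- the integers along the orbit -/
def UU (x : ℤ → Fin 6) (U : ℤ → ℕ) : ℕ → ℤ → ℕ
  | 0 => U
  | n + 1 => nxt (F^[n] x) (UU x U n)

lemma IP_UU {x : ℤ → Fin 6} {U : ℤ → ℕ} (h : IP x U) (n : ℕ) : IP (F^[n] x) (UU x U n) := by
  induction n with
  | zero => exact h
  | succ n ih =>
    rw [Function.iterate_succ_apply']
    exact IP_F ih

lemma UU_rec {x : ℤ → Fin 6} {U : ℤ → ℕ} (h : IP x U) (n : ℕ) (j : ℤ) :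
    2 * (UU x U (n + 1) j : ℤ) = 3 * (UU x U n j : ℤ) + dif (F^[n] x) j :=
  nxt_rec (IP_UU h n) j

/-- growth far to the right -/
lemma UU_growth {x : ℤ → Fin 6} {U : ℤ → ℕ} (h : IP x U) {j : ℤ} (hj : 2 ≤ U j) (n : ℕ) :
    n + 2 ≤ 2 * UU x U n j := by
  have key : ∀ n : ℕ, (n : ℤ) + 2 ≤ 2 * ((UU x U n j : ℤ) - 1) ∧ 2 ≤ UU x U n j := by
    intro n
    induction n with
    | zero =>
      constructor
      · have : (2 : ℤ) ≤ (UU x U 0 j : ℤ) := by exact_mod_cast hj
        push_cast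
        linarith
      · exact hj
    | succ n ih =>
      obtain ⟨h1, h2⟩ := ih
      have h3 := UU_rec h n j
      have h4 := (dif_range (F^[n] x) j).1
      have h2' : (2 : ℤ) ≤ (UU x U n j : ℤ) := by exact_mod_cast h2
      push_cast
      refine ⟨by omega, by omega⟩
  have := (key n).1
  omega

lemma IP_div {x : ℤ → Fin 6} {U : ℤ → ℕ} (h : IP x U) (j : ℤ) (t : ℕ) :
    U j = U (j + t) / 6 ^ t := by
  induction t with
  | zero => simp
  | succ t ih =>
    have h1 := h (j + (t + 1 : ℕ))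
    have h2 : j + ((t + 1 : ℕ) : ℤ) - 1 = j + t := by push_cast; ring
    rw [h2] at h1
    have h3 := (x (j + ((t + 1 : ℕ) : ℤ))).isLt
    rw [ih, pow_succ, mul_comm, ← Nat.div_div_eq_div_mul]
    congr 1
    omega

/-- the integers of a finite configuration -/
lemma exists_IP (x : ℤ → Fin 6) (hbdd : BddBelow {i | x i ≠ 0}) (hx : ∃ i, x i ≠ 0) :
    ∃ U : ℤ → ℕ, IP x U ∧ ∃ j0 : ℤ, 1 ≤ U j0 := by
  classical
  obtain ⟨a, ha⟩ := hbdd
  have ha' : ∀ i, i < a → x i = 0 := by
    intro i hi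
    by_contra hne
    have := ha hne
    omega
  refine ⟨fun j => ∑ k ∈ Finset.range (j - a + 1).toNat, (x (j - k) : ℕ) * 6 ^ k, ?_, ?_⟩
  · intro j
    by_cases hj : j < a
    · have e1 : (j - a + 1).toNat = 0 := by omega
      have e2 : (j - 1 - a + 1).toNat = 0 := by omega
      simp [e1, e2, ha' j hj]
    · push Not at hj
      have e1 : (j - a + 1).toNat = (j - 1 - a + 1).toNat + 1 := by omega
      simp only [e1]
      rw [Finset.sum_range_succ', Finset.mul_sum, add_comm]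
      congr 1
      · simp
      · apply Finset.sum_congr rfl
        intro k _
        have e2 : j - ((k + 1 : ℕ) : ℤ) = j - 1 - k := by push_cast; ring
        rw [e2, pow_succ]
        ring
  · obtain ⟨i, hi⟩ := hx
    refine ⟨i, ?_⟩
    have hai : a ≤ i := ha hi
    have e1 : (i - a + 1).toNat = (i - a).toNat + 1 := by omega
    simp only [e1]
    rw [Finset.sum_range_succ']
    have h1 : 1 ≤ ((x (i - ((0 : ℕ) : ℤ)) : Fin 6) : ℕ) * 6 ^ 0 := by
      simp only [Nat.cast_zero, sub_zero, pow_zero, mul_one]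
      have : ((x i : Fin 6) : ℕ) ≠ 0 := fun h => hi (Fin.ext h)
      omega
    omega


/-- the integers of a configuration which vanishes far to the left grow at every position -/
lemma exists_large {x : ℤ → Fin 6} {U : ℤ → ℕ} (h : IP x U) {j0 : ℤ} (hj0 : 1 ≤ U j0) (j : ℤ) :
    ∃ n0, ∀ n, n0 ≤ n → 2 ≤ UU x U n j := by
  obtain ⟨t, ht⟩ : ∃ t : ℕ, j0 + 1 ≤ j + t := ⟨(j0 + 1 - j).toNat, by omega⟩
  obtain ⟨s, hs⟩ : ∃ s : ℕ, j + t = j0 + (s + 1 : ℕ) := ⟨(j + t - (j0 + 1)).toNat, by push_cast; omega⟩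
  have h1 : 2 ≤ U (j + t) := by
    have h2 := IP_div h j0 (s + 1)
    rw [← hs] at h2
    by_contra hlt
    push Not at hlt
    have h3 : U (j + t) / 6 ^ (s + 1) = 0 := by
      apply Nat.div_eq_of_lt
      calc U (j + t) < 2 := hlt
        _ ≤ 6 ^ (s + 1) := by
          calc 2 ≤ 6 ^ 1 := by norm_num
            _ ≤ 6 ^ (s + 1) := Nat.pow_le_pow_right (by norm_num) (by omega)
    omega
  refine ⟨4 * 6 ^ t, fun n hn => ?_⟩
  have h2 := UU_growth h h1 n
  rw [IP_div (IP_UU h n) j t, Nat.le_div_iff_mul_le (by positivity)]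
  omega

lemma col_val {x : ℤ → Fin 6} {U : ℤ → ℕ} (h : IP x U) (n : ℕ) (j : ℤ) :
    UU x U n j % 6 = (F^[n] x j : ℕ) := by
  have h1 := IP_UU h n j
  have h2 := (F^[n] x j).isLt
  omega

lemma UU_le {x : ℤ → Fin 6} {U : ℤ → ℕ} (h : IP x U) (n : ℕ) (j : ℤ) :
    UU x U n j + 2 ≤ (U j + 2) * 2 ^ n := by
  induction n with
  | zero => simp [UU]
  | succ n ih =>
    have h3 := UU_rec h n j
    have h4 := (dif_range (F^[n] x) j).2
    rw [pow_succ, ← mul_assoc]
    omega

/-- the length of a periodic stretch of a column -/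
lemma gap_col {x : ℤ → Fin 6} {U : ℤ → ℕ} (h : IP x U) (j : ℤ) {n0 : ℕ}
    (hn0 : ∀ n, n0 ≤ n → 2 ≤ UU x U n j) {a p v : ℕ} (hp : 1 ≤ p)
    (hper : ∀ n, a ≤ n → n + p < v → F^[n + p] x j = F^[n] x j) :
    v ≤ 2 * (a + n0 + p) + U j + 3 := by
  obtain ⟨b, hb⟩ : ∃ b, b = a + n0 := ⟨_, rfl⟩
  rw [← hb]
  by_contra hv
  push Not at hv
  obtain ⟨k, hk⟩ : ∃ k, v = b + p + 1 + k := ⟨v - (b + p + 1), by omega⟩
  have key : ∀ i, i ≤ k → (2 : ℤ) ^ i * ((UU x U (b + i + p) j : ℤ) - UU x U (b + i) j) =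
      3 ^ i * ((UU x U (b + p) j : ℤ) - UU x U b j) := by
    intro i
    induction i with
    | zero => intro _; simp
    | succ i ih =>
      intro hi
      have h1 := ih (by omega)
      have h2 := UU_rec h (b + i + p) j
      have h3 := UU_rec h (b + i) j
      have h4 := dif_range (F^[b + i + p] x) j
      have h5 := dif_range (F^[b + i] x) j
      have h6 := col_val h (b + i + p) j
      have h7 := col_val h (b + i) j
      have h8 := col_val h (b + i + p + 1) j
      have h9 := col_val h (b + i + 1) j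
      have h10 := hper (b + i) (by omega) (by omega)
      have h11 := hper (b + i + 1) (by omega) (by omega)
      rw [show b + i + 1 + p = b + i + p + 1 by omega] at h11
      rw [h10] at h6
      rw [h11] at h8
      have h12 : dif (F^[b + i + p] x) j = dif (F^[b + i] x) j := by omega
      rw [show b + (i + 1) + p = b + i + p + 1 by omega, show b + (i + 1) = b + i + 1 by omega, pow_succ, pow_succ]
      have h13 : 2 * ((UU x U (b + i + p + 1) j : ℤ) - UU x U (b + i + 1) j) =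
          3 * ((UU x U (b + i + p) j : ℤ) - UU x U (b + i) j) := by omega
      calc (2 : ℤ) ^ i * 2 * ((UU x U (b + i + p + 1) j : ℤ) - UU x U (b + i + 1) j)
          = 2 ^ i * (2 * ((UU x U (b + i + p + 1) j : ℤ) - UU x U (b + i + 1) j)) := by ring
        _ = 3 * (2 ^ i * ((UU x U (b + i + p) j : ℤ) - UU x U (b + i) j)) := by rw [h13]; ring
        _ = _ := by rw [h1]; ring
  have hmono : ∀ n, UU x U b j + n ≤ UU x U (b + n) j := by
    intro n
    induction n with
    | zero => simp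
    | succ n ih =>
      have h1 := UU_rec h (b + n) j
      have h2 := (dif_range (F^[b + n] x) j).1
      have h3 := hn0 (b + n) (by omega)
      rw [show b + (n + 1) = b + n + 1 by omega]
      omega
  have hpos : 0 < (UU x U (b + p) j : ℤ) - UU x U b j := by
    have := hmono p
    omega
  have hdvd : (2 : ℤ) ^ k ∣ (UU x U (b + p) j : ℤ) - UU x U b j := by
    have h1 : (2 : ℤ) ^ k ∣ 3 ^ k * ((UU x U (b + p) j : ℤ) - UU x U b j) :=
      ⟨_, (key k le_rfl).symm⟩
    exact (IsCoprime.pow (by norm_num)).dvd_of_dvd_mul_left h1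
  have h1 := Int.le_of_dvd hpos hdvd
  have h2 := UU_le h (b + p) j
  have h3 : (2 : ℕ) ^ k < (U j + 2) * 2 ^ (b + p) := by
    have : ((2 : ℕ) ^ k : ℤ) < ((U j + 2) * 2 ^ (b + p) : ℕ) := by
      push_cast
      have h4 : ((UU x U (b + p) j + 2 : ℕ) : ℤ) ≤ (((U j + 2) * 2 ^ (b + p) : ℕ) : ℤ) := by exact_mod_cast h2
      push_cast at h4
      have h5 : (0 : ℤ) ≤ UU x U b j := Int.natCast_nonneg _
      linarith
    exact_mod_cast this
  have h4 : U j + 2 ≤ 2 ^ (U j + 2) := Nat.lt_two_pow_self.le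
  have h5 : (2 : ℕ) ^ k < 2 ^ (U j + 2 + (b + p)) := by
    rw [pow_add]
    exact h3.trans_le (Nat.mul_le_mul_right _ h4)
  have h6 := (Nat.pow_lt_pow_iff_right (by norm_num)).1 h5
  omega

end Pool.Agent.U364.PD.Col
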