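import Mathlib
import Pool.Agent.U364.PD.Mach
import Pool.Agent.U364.PD.Joint

/-!
# Pushdown predictors for the parities of the orbits of the `3x+d` maps
-/

set_option autoImplicit false

namespace Pool.Agent.U364.PD.TD

/-- the `3x+d` map -/
def T (d : ℤ) (x : ℤ) : ℤ := if x % 2 = 0 then x / 2 else (3 * x + d) / 2

lemma two_mul_T {d : ℤ} (hd : d % 2 = 1) (x : ℤ) :
    2 * T d x = if x % 2 = 0 then x else 3 * x + d := by
  unfold T
  split_ifs with h <;> omega

lemma T_abs {d : ℤ} (hd : d % 2 = 1) (x : ℤ) : |T d x| + |d| ≤ 2 * (|x| + |d|) := by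
  have h := two_mul_T hd x
  have hx := abs_nonneg x
  have hd0 := abs_nonneg d
  have h1 : |2 * T d x| = 2 * |T d x| := by rw [abs_mul]; norm_num
  split_ifs at h with h2
  · rw [h] at h1
    linarith
  · rw [h] at h1
    have h3 : |3 * x + d| ≤ 3 * |x| + |d| := by
      calc |3 * x + d| ≤ |3 * x| + |d| := abs_add_le _ _
        _ = 3 * |x| + |d| := by rw [abs_mul]; norm_num
    linarith

lemma iter_abs {d : ℤ} (hd : d % 2 = 1) (x : ℤ) (n : ℕ) :
    |(T d)^[n] x| + |d| ≤ 2 ^ n * (|x| + |d|) := by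
  induction n with
  | zero => simp
  | succ n ih =>
    rw [Function.iterate_succ_apply', pow_succ]
    have := T_abs hd ((T d)^[n] x)
    linarith

/-- equal parities for `k` steps -/
lemma dvd_of_parity {d : ℤ} (hd : d % 2 = 1) (k : ℕ) (x y : ℤ)
    (h : ∀ i < k, (T d)^[i] x % 2 = (T d)^[i] y % 2) : (2 : ℤ) ^ k ∣ x - y := by
  induction k generalizing x y with
  | zero => simp
  | succ k ih =>
    have h0 := h 0 (by omega)
    simp only [Function.iterate_zero, id_eq] at h0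
    have h1 : (2 : ℤ) ^ k ∣ T d x - T d y := by
      refine ih _ _ fun i hi => ?_
      have := h (i + 1) (by omega)
      rwa [Function.iterate_succ_apply, Function.iterate_succ_apply] at this
    obtain ⟨c, hc⟩ := h1
    have h2 := two_mul_T hd x
    have h3 := two_mul_T hd y
    have h4 : (2 : ℤ) ^ (k + 1) ∣ 3 * (x - y) := by
      rw [pow_succ]
      split_ifs at h2 h3 with h5 h6
      · exact ⟨3 * c, by linear_combination (-3) * h2 + 3 * h3 + 6 * hc⟩
      · omega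
      · omega
      · exact ⟨c, by linear_combination (-1) * h2 + h3 + 2 * hc⟩
    exact (IsCoprime.pow_left (by norm_num)).dvd_of_dvd_mul_left h4

/-- the iterates as affine functions -/
lemma affine {d : ℤ} (hd : d % 2 = 1) (x : ℤ) (k : ℕ) :
    ∃ (o : ℕ) (R : ℤ), 0 ≤ R ∧ R ≤ 4 ^ k ∧ 2 ^ k * (T d)^[k] x = 3 ^ o * x + d * R := by
  induction k with
  | zero => exact ⟨0, 0, le_rfl, by norm_num, by simp⟩
  | succ k ih =>
    obtain ⟨o, R, h1, h2, h3⟩ := ih
    have h4 := two_mul_T hd ((T d)^[k] x)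
    have h5 : (0 : ℤ) < 2 ^ k := by positivity
    have h6 : (2 : ℤ) ^ k ≤ 4 ^ k := pow_le_pow_left₀ (by norm_num) (by norm_num) k
    rw [Function.iterate_succ_apply']
    split_ifs at h4 with h7
    · refine ⟨o, R, h1, ?_, ?_⟩
      · rw [pow_succ]; linarith
      · rw [pow_succ, mul_assoc, h4, h3]
    · refine ⟨o + 1, 3 * R + 2 ^ k, by positivity, ?_, ?_⟩
      · rw [pow_succ]; linarith
      · rw [pow_succ, mul_assoc, h4, pow_succ]
        linear_combination 3 * h3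

/-- short cycles are small -/
lemma cycle_small {d : ℤ} (hd : d % 2 = 1) (x : ℤ) (p P : ℕ) (hp : 1 ≤ p) (hpP : p ≤ P)
    (h : (T d)^[p] x = x) : |x| ≤ 4 ^ P * |d| := by
  obtain ⟨o, R, h1, h2, h3⟩ := affine hd x p
  rw [h] at h3
  have h4 : ((2 : ℤ) ^ p - 3 ^ o) * x = d * R := by linear_combination h3
  have h5 : (2 : ℤ) ^ p - 3 ^ o ≠ 0 := by
    intro h6
    have h7 : (2 : ℤ) ^ p = 3 ^ o := by linarith
    have h8 : Even ((2 : ℤ) ^ p) := (even_two).pow_of_ne_zero (by omega)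
    have h9 : Odd ((3 : ℤ) ^ o) := Odd.pow (by decide)
    rw [h7] at h8
    exact (Int.not_even_iff_odd.2 h9) h8
  have h6 : 1 ≤ |(2 : ℤ) ^ p - 3 ^ o| := Int.one_le_abs h5
  have h7 : |(2 : ℤ) ^ p - 3 ^ o| * |x| = |d| * R := by
    rw [← abs_mul, h4, abs_mul, abs_of_nonneg h1]
  have h8 : |x| ≤ |(2 : ℤ) ^ p - 3 ^ o| * |x| := le_mul_of_one_le_left (abs_nonneg x) h6
  have h9 : (4 : ℤ) ^ p ≤ 4 ^ P := pow_le_pow_right₀ (by norm_num) hpP
  rw [h7] at h8
  calc |x| ≤ |d| * R := h8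
    _ ≤ |d| * 4 ^ P := mul_le_mul_of_nonneg_left (h2.trans h9) (abs_nonneg d)
    _ = _ := mul_comm _ _

/-- the length of a periodic stretch of parities -/
lemma gap_td {d : ℤ} (hd : d % 2 = 1) (x : ℤ) {a p v L : ℕ}
    (hL : |x| + |d| ≤ 2 ^ L) (hne : (T d)^[a + p] x ≠ (T d)^[a] x)
    (hper : ∀ n, a ≤ n → n + p < v → (T d)^[n + p] x % 2 = (T d)^[n] x % 2) :
    v ≤ 2 * (a + p) + L + 1 := by
  by_contra hv
  push Not at hv
  obtain ⟨k, hk⟩ : ∃ k, v = a + p + k := ⟨v - (a + p), by omega⟩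
  have h1 : (2 : ℤ) ^ k ∣ (T d)^[a + p] x - (T d)^[a] x := by
    refine dvd_of_parity hd k _ _ fun i hi => ?_
    rw [← Function.iterate_add_apply, ← Function.iterate_add_apply]
    have := hper (i + a) (by omega) (by omega)
    rwa [add_assoc] at this
  have h2 : (2 : ℤ) ^ k ≤ |(T d)^[a + p] x - (T d)^[a] x| :=
    Int.le_of_dvd (abs_pos.2 (sub_ne_zero.2 hne)) ((dvd_abs _ _).2 h1)
  have h3 := iter_abs hd x (a + p)
  have h4 := iter_abs hd x a
  have h5 : (2 : ℤ) ^ a ≤ 2 ^ (a + p) := pow_le_pow_right₀ (by norm_num) (by omega)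
  have hd1 : 1 ≤ |d| := Int.one_le_abs (by omega)
  have h6 : (2 : ℤ) ^ k < 2 ^ (a + p + L + 1) := by
    calc (2 : ℤ) ^ k ≤ |(T d)^[a + p] x - (T d)^[a] x| := h2
      _ ≤ |(T d)^[a + p] x| + |(T d)^[a] x| := abs_sub _ _
      _ < 2 ^ (a + p) * (|x| + |d|) + 2 ^ a * (|x| + |d|) := by linarith
      _ ≤ 2 ^ (a + p) * (|x| + |d|) + 2 ^ (a + p) * (|x| + |d|) := by
          have : (2 : ℤ) ^ a * (|x| + |d|) ≤ 2 ^ (a + p) * (|x| + |d|) :=
            mul_le_mul_of_nonneg_right h5 (by positivity)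
          linarith
      _ = 2 * 2 ^ (a + p) * (|x| + |d|) := by ring
      _ ≤ 2 * 2 ^ (a + p) * 2 ^ L := mul_le_mul_of_nonneg_left hL (by positivity)
      _ = 2 ^ (a + p + L + 1) := by rw [pow_succ, pow_add]; ring
  have h7 := (pow_lt_pow_iff_right₀ (by norm_num : (1 : ℤ) < 2)).1 h6
  omega

end Pool.Agent.U364.PD.TD
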