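import Pool.Agent.U364.PD.Mach
import Pool.Agent.U455.JB

/-!
# Pushdown predictors for the digits of two numbers in two bases
-/

set_option autoImplicit false

namespace Pool.Agent.U364.PD

open Finset
open Pool.Agent.W472.AC (digit digit_nonneg)
open Pool.Agent.R356 (JointR)

/-- the place after the last error -/
lemma last_error (G : ℕ → Prop) [DecidablePred G] (N : ℕ) :
    ∃ u ≤ N, (∀ i, u ≤ i → i < N → G i) ∧ (u = 0 ∨ ∃ w, u = w + 1 ∧
      ((range w).filter fun i => ¬ G i).card + 1 ≤ ((range N).filter fun i => ¬ G i).card) := by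
  induction N with
  | zero => exact ⟨0, le_rfl, fun i _ h => absurd h (Nat.not_lt_zero i), Or.inl rfl⟩
  | succ N ih =>
    by_cases hN : G N
    · obtain ⟨u, huN, hG, h⟩ := ih
      refine ⟨u, by omega, fun i h1 h2 => ?_, ?_⟩
      · rcases Nat.lt_succ_iff_lt_or_eq.1 h2 with h3 | h3
        · exact hG i h1 h3
        · rw [h3]; exact hN
      · rw [Finset.range_add_one, Finset.filter_insert, if_neg (by simpa using hN)]
        exact h
    · refine ⟨N + 1, le_rfl, fun i h1 h2 => by omega, Or.inr ⟨N, rfl, ?_⟩⟩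
      rw [Finset.range_add_one, Finset.filter_insert, if_pos (by simpa using hN),
        Finset.card_insert_of_notMem (by simp)]

/-- **Two machines, two numbers, two bases.** -/
theorem two {Q Γ Q' Γ' : Type} [Finite Q] [Finite Γ] [Finite Q'] [Finite Γ'] (x y : ℝ)
    (hxy : JointR x y) (b b' : ℕ) (hb : 2 ≤ b) (hb' : 2 ≤ b') (M : Machine Q Γ)
    (M' : Machine Q' Γ') :
    ∃ K : ℝ, 1 ≤ K ∧ ∀ (q : Q) (s : List Γ) (q' : Q') (s' : List Γ') (N N' : ℕ),
      min (N * Real.log b) (N' * Real.log b') ≤
        K ^ (errors M (digit b x) q s N + errors M' (digit b' y) q' s' N' + 1) *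
          (s.length + s'.length + 1) := by
  classical
  obtain ⟨A, hA, hblock⟩ := Pool.Agent.U455.JB.block2 x y hxy 1
  obtain ⟨C, P₀, hst⟩ := stretchP M b
  obtain ⟨C', P₀', hst'⟩ := stretchP M' b'
  have hbR : (2 : ℝ) ≤ b := by exact_mod_cast hb
  have hbR' : (2 : ℝ) ≤ b' := by exact_mod_cast hb'
  obtain ⟨lb, elb⟩ : ∃ z : ℝ, z = Real.log b := ⟨_, rfl⟩
  obtain ⟨lb', elb'⟩ : ∃ z : ℝ, z = Real.log b' := ⟨_, rfl⟩
  have hlb : 0 < lb := by rw [elb]; exact Real.log_pos (by linarith)
  have hlb' : 0 < lb' := by rw [elb']; exact Real.log_pos (by linarith)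
  have hC0 : (0 : ℝ) ≤ C := Nat.cast_nonneg _
  have hC0' : (0 : ℝ) ≤ C' := Nat.cast_nonneg _
  obtain ⟨K, hK⟩ : ∃ K : ℝ, K = A * ((C + 1) * (1 + 2 * lb) + (C' + 1) * (1 + 2 * lb')) := ⟨_, rfl⟩
  have hK1 : 1 ≤ K := by
    have h1 : 1 ≤ (C + 1) * (1 + 2 * lb) := by nlinarith
    have h2 : 1 ≤ (C' + 1) * (1 + 2 * lb') := by nlinarith
    rw [hK]
    nlinarith
  have hd : ∀ (β : ℕ) (z : ℝ), 2 ≤ β → ∀ l, 0 ≤ digit β z l ∧ digit β z l < β :=
    fun β z hβ l => ⟨digit_nonneg _ _ (by omega) _, by
      unfold digit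
      exact Int.emod_lt_of_pos _ (by exact_mod_cast (by omega : 0 < β))⟩
  refine ⟨K, hK1, fun q s q' s' => ?_⟩
  rw [← elb, ← elb']
  obtain ⟨S, hS⟩ : ∃ S : ℝ, S = s.length + s'.length + 1 := ⟨_, rfl⟩
  have hs0 : (0 : ℝ) ≤ s.length := Nat.cast_nonneg _
  have hs0' : (0 : ℝ) ≤ s'.length := Nat.cast_nonneg _
  have hS1 : 1 ≤ S := by rw [hS]; linarith
  rw [← hS]
  suffices H : ∀ n N N' : ℕ, errors M (digit b x) q s N + errors M' (digit b' y) q' s' N' = n →
      min (N * lb) (N' * lb') ≤ K ^ (n + 1) * S from fun N N' => H _ N N' rfl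
  intro n
  induction n using Nat.strong_induction_on with
  | _ n ih =>
    intro N N' hn
    obtain ⟨u, huN, hG, hu⟩ := last_error (fun i => Predicts M (digit b x) q s i) N
    obtain ⟨u', huN', hG', hu'⟩ := last_error (fun i => Predicts M' (digit b' y) q' s' i) N'
    obtain ⟨P, hP⟩ : ∃ P : ℝ, P = K ^ n * S := ⟨_, rfl⟩
    have hSP : S ≤ P := by rw [hP]; exact le_mul_of_one_le_left (by linarith) (one_le_pow₀ hK1)
    have hP1 : 1 ≤ P := hS1.trans hSP
    have hPK : P ≤ K ^ (n + 1) * S := by
      rw [pow_succ, mul_right_comm, ← hP]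
      exact le_mul_of_one_le_right (by linarith) hK1
    have hmono : ∀ m, m + 1 ≤ n → K ^ (m + 1) * S ≤ P := by
      intro m hm
      rw [hP]
      exact mul_le_mul_of_nonneg_right (pow_le_pow_right₀ hK1 hm) (by linarith)
    by_cases h1 : (N : ℝ) * lb ≤ P
    · exact (min_le_left _ _).trans (h1.trans hPK)
    by_cases h2 : (N' : ℝ) * lb' ≤ P
    · exact (min_le_right _ _).trans (h2.trans hPK)
    push Not at h1 h2
    have h3 : (u : ℝ) * lb ≤ P + lb := by
      rcases hu with hu | ⟨w, hw, hc⟩
      · rw [hu, Nat.cast_zero, zero_mul]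
        linarith
      · have h4 : errors M (digit b x) q s w + 1 ≤ errors M (digit b x) q s N := by
          unfold errors
          exact hc
        have h5 := ih (errors M (digit b x) q s w + errors M' (digit b' y) q' s' N') (by omega) w N'
          rfl
        have h6 := h5.trans (hmono _ (by omega))
        rcases min_le_iff.1 h6 with h7 | h7
        · rw [hw]
          push_cast
          nlinarith
        · linarith
    have h4 : (u' : ℝ) * lb' ≤ P + lb' := by
      rcases hu' with hu' | ⟨w, hw, hc⟩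
      · rw [hu', Nat.cast_zero, zero_mul]
        linarith
      · have h4 : errors M' (digit b' y) q' s' w + 1 ≤ errors M' (digit b' y) q' s' N' := by
          unfold errors
          exact hc
        have h5 := ih (errors M (digit b x) q s N + errors M' (digit b' y) q' s' w) (by omega) N w
          rfl
        have h6 := h5.trans (hmono _ (by omega))
        rcases min_le_iff.1 h6 with h7 | h7
        · linarith
        · rw [hw]
          push_cast
          nlinarith
    obtain ⟨a, p, hp1, -, hap, hper⟩ := hst (digit b x) (hd b x hb) q s u N hG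
    obtain ⟨a', p', hp1', -, hap', hper'⟩ := hst' (digit b' y) (hd b' y hb') q' s' u' N' hG'
    have h5 := hblock b b' hb hb' u N (C * (u + s.length + 1)) u' N' (C' * (u' + s'.length + 1)) huN
      huN' (Pool.Agent.U455.JB.brel_periodic b x u N a p _ hp1 hap hper)
      (Pool.Agent.U455.JB.brel_periodic b' y u' N' a' p' _ hp1' hap' hper')
    rw [← elb, ← elb'] at h5
    push_cast at h5
    refine h5.trans ?_
    have g1 : ((C : ℝ) * (u + s.length + 1) + 1 + u) * lb ≤ (C + 1) * (1 + 2 * lb) * P := by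
      have e : ((C : ℝ) * (u + s.length + 1) + 1 + u) * lb =
          (C + 1) * (u * lb) + (C * (s.length + 1) + 1) * lb := by ring
      have k1 : (C + 1) * ((u : ℝ) * lb) ≤ (C + 1) * (P + lb * P) := by
        refine mul_le_mul_of_nonneg_left (h3.trans ?_) (by linarith)
        have : lb * 1 ≤ lb * P := mul_le_mul_of_nonneg_left hP1 hlb.le
        linarith
      have k2 : ((C : ℝ) * (s.length + 1) + 1) * lb ≤ (C + 1) * P * lb := by
        refine mul_le_mul_of_nonneg_right ?_ hlb.le
        have k3 : (s.length : ℝ) + 1 ≤ P := by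
          refine le_trans ?_ hSP
          rw [hS]; linarith
        nlinarith
      rw [e]
      linarith
    have g2 : ((C' : ℝ) * (u' + s'.length + 1) + 1 + u') * lb' ≤ (C' + 1) * (1 + 2 * lb') * P := by
      have e : ((C' : ℝ) * (u' + s'.length + 1) + 1 + u') * lb' =
          (C' + 1) * (u' * lb') + (C' * (s'.length + 1) + 1) * lb' := by ring
      have k1 : (C' + 1) * ((u' : ℝ) * lb') ≤ (C' + 1) * (P + lb' * P) := by
        refine mul_le_mul_of_nonneg_left (h4.trans ?_) (by linarith)
        have : lb' * 1 ≤ lb' * P := mul_le_mul_of_nonneg_left hP1 hlb'.le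
        linarith
      have k2 : ((C' : ℝ) * (s'.length + 1) + 1) * lb' ≤ (C' + 1) * P * lb' := by
        refine mul_le_mul_of_nonneg_right ?_ hlb'.le
        have k3 : (s'.length : ℝ) + 1 ≤ P := by
          refine le_trans ?_ hSP
          rw [hS]; linarith
        nlinarith
      rw [e]
      linarith
    have g3 : K ^ (n + 1) * S = K * P := by rw [pow_succ, hP]; ring
    rw [g3, hK]
    have g4 := mul_le_mul_of_nonneg_left (add_le_add g1 g2) (by linarith : (0 : ℝ) ≤ A)
    linarith

end Pool.Agent.U364.PD
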